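import Mathlib
import Pool.Agent.H710.RingCore

set_option autoImplicit false
set_option linter.unusedSectionVars false

/-!
# Approximate covering of a ring without common orientation is solvable under ASYNC

This answers Q2 of `MP_5c423c_lc`: yes.

Model.  The ring is the real line modulo `L`, clockwise being the increasing direction.  The `n`
sensors are indexed by `ZMod n`; they do not know the indices, `n`, `L` or `d = L / n`.  Every
sensor has its own coordinate system: its origin is the sensor, its orientation is `o = 1` or
`o = -1` and its unit of length is `u > 0` (orientation and unit may be different for different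
sensors and may even change from cycle to cycle).  A sensor knows its own visibility range (in
its own unit) and sees the set of the coordinates of the sensors within the visibility range.

Time is continuous.  The `k`-th cycle of sensor `i` consists of an instantaneous Look at the time
`look i k` (the snapshot shows the positions of the other sensors at that time, also if they are
just moving), a Compute period and a Move period, which ends at the time `fin i k`; all these
periods and the idle periods between the cycles have arbitrary length.  During the cycle the sensor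
is somewhere between its old position and the destination computed from the snapshot, and the move
may end early, but then it covers at least the distance `δ`.  (We do not even require that the
motion is continuous or monotone.)

Algorithm.  With `c = min 1 (ε / V) / 8` the sensor compares the distances to its two neighbours,
both clamped to the interval `[4 c V, V]`, and moves by `c` times the difference towards the
larger side.  So a sensor only moves towards a neighbour at distance more than `4 c V`, and a move
has length at most `c V`; hence there are no collisions, although the information used may be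
outdated.
-/

namespace Pool.Agent.Results.MP_5c423c_lc.AsyncCovering

open Finset

/-- A deterministic oblivious algorithm.  Its input is the visibility range and the set of the
coordinates of the visible sensors, both in the sensor's own coordinate system; its output is the
coordinate of the destination in this system. -/
def Algorithm : Type := ℝ → Set ℝ → ℝ

/-- The snapshot of sensor `i` when the positions are `p` (real coordinates modulo `L`), for the
visibility range `V`, in the coordinate system with origin `p i`, orientation `o` and unit of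
length `u`. -/
def snapshot {n : ℕ} (L V : ℝ) (p : ZMod n → ℝ) (o u : ℝ) (i : ZMod n) : Set ℝ :=
  {r | |r| ≤ V / u ∧ ∃ j, ∃ m : ℤ, p j = p i + o * (u * r) + m * L}

/-- The destination which sensor `i` computes from its snapshot. -/
noncomputable def destination {n : ℕ} (A : Algorithm) (L V : ℝ) (p : ZMod n → ℝ) (o u : ℝ)
    (i : ZMod n) : ℝ :=
  p i + o * (u * A (V / u) (snapshot L V p o u i))

/-- An execution of the algorithm `A` under the ASYNC scheduler: `p t i` is the position of sensor
`i` at time `t ≥ 0`, `look i k` is the time of the Look of its `k`-th cycle and `fin i k` the time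
at which the Move of this cycle ends. -/
structure IsExecution {n : ℕ} (A : Algorithm) (L V δ : ℝ) (o u look fin : ZMod n → ℕ → ℝ)
    (p : ℝ → ZMod n → ℝ) : Prop where
  /-- orientations are arbitrary -/
  orientation : ∀ i k, o i k = 1 ∨ o i k = -1
  /-- units of length are arbitrary -/
  unit_pos : ∀ i k, 0 < u i k
  look_nonneg : ∀ i, 0 ≤ look i 0
  look_lt_fin : ∀ i k, look i k < fin i k
  fin_le_look : ∀ i k, fin i k ≤ look i (k + 1)
  /-- every sensor is activated infinitely often -/
  fair : ∀ i t, ∃ k, t ≤ look i k
  /-- a sensor does not move before its first cycle -/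
  idle_start : ∀ i t, 0 ≤ t → t ≤ look i 0 → p t i = p 0 i
  /-- a sensor does not move between two cycles -/
  idle : ∀ i k t, fin i k ≤ t → t ≤ look i (k + 1) → p t i = p (fin i k) i
  /-- in a cycle the sensor is between its old position and its destination -/
  move : ∀ i k t, look i k ≤ t → t ≤ fin i k →
    p t i ∈ Set.uIcc (p (look i k) i) (destination A L V (p (look i k)) (o i k) (u i k) i)
  /-- a move may stop early, but then it covers at least the distance `δ` -/
  arrive : ∀ i k, min δ |destination A L V (p (look i k)) (o i k) (u i k) i - p (look i k) i| ≤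
    |p (fin i k) i - p (look i k) i|

/-- The clockwise distance from the point `x` to the point `y` of the ring of length `L`, a number
in `[0, L)`. -/
noncomputable def cw (L x y : ℝ) : ℝ := L * Int.fract ((y - x) / L)

/-- The sensors are at distinct points and sensor `i + 1` follows sensor `i` clockwise (going once
around the ring). -/
def InClockwiseOrder {n : ℕ} [NeZero n] (L : ℝ) (p : ZMod n → ℝ) : Prop :=
  (∀ i, 0 < cw L (p i) (p (i + 1))) ∧ ∑ i, cw L (p i) (p (i + 1)) = L

/-- distance to the nearest visible sensor in the positive direction (`R` if there is none) -/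
noncomputable def rt (R : ℝ) (S : Set ℝ) : ℝ := sInf ({r | r ∈ S ∧ 0 < r} ∪ {R})

/-- distance to the nearest visible sensor in the negative direction (`R` if there is none) -/
noncomputable def lf (R : ℝ) (S : Set ℝ) : ℝ := sInf ({r | r ∈ {r | -r ∈ S} ∧ 0 < r} ∪ {R})

/-- the algorithm -/
noncomputable def alg (c : ℝ) : Algorithm := fun R S =>
  c * (max (4 * c * R) (rt R S) - max (4 * c * R) (lf R S))

theorem sInf_eq {S : Set ℝ} {a R : ℝ} (ha : 0 < a) (hR : 0 < R)
    (h1 : ∀ r ∈ S, 0 < r → a ≤ r) (h2 : a ≤ R → a ∈ S) :
    sInf ({r | r ∈ S ∧ 0 < r} ∪ {R}) = min a R := by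
  have hb : BddBelow ({r | r ∈ S ∧ 0 < r} ∪ {R}) := by
    refine ⟨0, ?_⟩
    rintro r (⟨-, h⟩ | h)
    · exact h.le
    · rw [Set.mem_singleton_iff] at h
      rw [h]
      exact hR.le
  apply le_antisymm
  · rcases le_total a R with h | h
    · rw [min_eq_left h]
      exact csInf_le hb (Or.inl ⟨h2 h, ha⟩)
    · rw [min_eq_right h]
      exact csInf_le hb (Or.inr rfl)
  · apply le_csInf ⟨R, Or.inr rfl⟩
    rintro r (⟨h, h'⟩ | h)
    · exact (min_le_left _ _).trans (h1 r h h')
    · rw [Set.mem_singleton_iff] at h
      rw [h]
      exact min_le_right _ _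

theorem clamp_scale {u : ℝ} (hu : 0 < u) (c V a : ℝ) :
    u * max (4 * c * (V / u)) (min (a / u) (V / u)) = max (4 * c * V) (min a V) := by
  rw [mul_max_of_nonneg _ _ hu.le, mul_min_of_nonneg _ _ hu.le]
  have h1 : u * (4 * c * (V / u)) = 4 * c * V := by field_simp
  have h2 : u * (a / u) = a := by field_simp
  have h3 : u * (V / u) = V := by field_simp
  rw [h1, h2, h3]

/-- the algorithm in global coordinates -/
theorem alg_eq {c V o u : ℝ} (hV : 0 < V) (ho : o = 1 ∨ o = -1) (hu : 0 < u) {Y : ℤ → ℝ}
    (hY : StrictMono Y) (k : ℤ) {S : Set ℝ}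
    (hS : ∀ r, r ∈ S ↔ |r| ≤ V / u ∧ ∃ j, Y j = Y k + o * (u * r)) :
    Y k + o * (u * alg c (V / u) S) =
      H710.RingCore.F c (4 * c * V) V (Y (k - 1)) (Y k) (Y (k + 1)) := by
  have hR : 0 < V / u := div_pos hV hu
  have hg1 : 0 < Y (k + 1) - Y k := sub_pos.2 (hY (by omega))
  have hg2 : 0 < Y k - Y (k - 1) := sub_pos.2 (hY (by omega))
  have ha1 : 0 < (Y (k + 1) - Y k) / u := div_pos hg1 hu
  have ha2 : 0 < (Y k - Y (k - 1)) / u := div_pos hg2 hu
  have e1 : u * ((Y (k + 1) - Y k) / u) = Y (k + 1) - Y k := by field_simp
  have e2 : u * ((Y k - Y (k - 1)) / u) = Y k - Y (k - 1) := by field_simp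
  -- sensors in the increasing direction
  have up : ∀ r, 0 < r → (∃ j, Y j = Y k + u * r) → (Y (k + 1) - Y k) / u ≤ r := by
    rintro r hr ⟨j, hj⟩
    have h1 : k < j := by
      rw [← hY.lt_iff_lt, hj]
      have := mul_pos hu hr
      linarith
    have h2 : Y (k + 1) ≤ Y j := hY.monotone (by omega)
    rw [div_le_iff₀ hu]
    linarith
  have down : ∀ r, 0 < r → (∃ j, Y j = Y k - u * r) → (Y k - Y (k - 1)) / u ≤ r := by
    rintro r hr ⟨j, hj⟩
    have h1 : j < k := by
      rw [← hY.lt_iff_lt, hj]
      have := mul_pos hu hr
      linarith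
    have h2 : Y j ≤ Y (k - 1) := hY.monotone (by omega)
    rw [div_le_iff₀ hu]
    linarith
  have s1 := clamp_scale hu c V (Y (k + 1) - Y k)
  have s2 := clamp_scale hu c V (Y k - Y (k - 1))
  unfold H710.RingCore.F H710.RingCore.phi
  rcases ho with rfl | rfl
  · have h1 : rt (V / u) S = min ((Y (k + 1) - Y k) / u) (V / u) := by
      apply sInf_eq ha1 hR
      · intro r hr hr0
        obtain ⟨-, j, hj⟩ := (hS r).1 hr
        exact up r hr0 ⟨j, by rw [hj]; ring⟩
      · intro h
        rw [hS, abs_of_pos ha1]
        exact ⟨h, k + 1, by rw [e1]; ring⟩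
    have h2 : lf (V / u) S = min ((Y k - Y (k - 1)) / u) (V / u) := by
      apply sInf_eq ha2 hR
      · intro r hr hr0
        obtain ⟨-, j, hj⟩ := (hS (-r)).1 hr
        exact down r hr0 ⟨j, by rw [hj]; ring⟩
      · intro h
        rw [Set.mem_ofPred_eq, hS, abs_neg, abs_of_pos ha2]
        exact ⟨h, k - 1, by rw [mul_neg, e2]; ring⟩
    unfold alg
    rw [h1, h2, ← s1, ← s2]
    ring
  · have h1 : rt (V / u) S = min ((Y k - Y (k - 1)) / u) (V / u) := by
      apply sInf_eq ha2 hR
      · intro r hr hr0
        obtain ⟨-, j, hj⟩ := (hS r).1 hr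
        exact down r hr0 ⟨j, by rw [hj]; ring⟩
      · intro h
        rw [hS, abs_of_pos ha2]
        exact ⟨h, k - 1, by rw [e2]; ring⟩
    have h2 : lf (V / u) S = min ((Y (k + 1) - Y k) / u) (V / u) := by
      apply sInf_eq ha1 hR
      · intro r hr hr0
        obtain ⟨-, j, hj⟩ := (hS (-r)).1 hr
        exact up r hr0 ⟨j, by rw [hj]; ring⟩
      · intro h
        rw [Set.mem_ofPred_eq, hS, abs_neg, abs_of_pos ha1]
        exact ⟨h, k + 1, by rw [mul_neg, e1]; ring⟩
    unfold alg
    rw [h1, h2, ← s1, ← s2]
    ring

/-- a sum over all residues as a sum over a range -/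
theorem sum_zmod {n : ℕ} [NeZero n] (g : ZMod n → ℝ) :
    ∑ i, g i = ∑ k ∈ range n, g (k : ZMod n) := by
  symm
  apply Finset.sum_nbij' (fun k : ℕ => (k : ZMod n)) (fun i : ZMod n => i.val)
  · intro k _
    exact mem_univ _
  · intro i _
    exact mem_range.2 (ZMod.val_lt i)
  · intro k hk
    exact ZMod.val_cast_of_lt (mem_range.1 hk)
  · intro i _
    exact ZMod.natCast_zmod_val i
  · intro k _
    rfl

/-- lifting a configuration in clockwise order to the real line -/
theorem exists_lift {n : ℕ} [NeZero n] {L : ℝ} (hL : 0 < L) (p : ZMod n → ℝ)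
    (h : InClockwiseOrder L p) : ∃ m : ℤ → ℤ,
      (∀ k : ℤ, p ((k : ℤ) : ZMod n) + m k * L < p ((k + 1 : ℤ) : ZMod n) + m (k + 1) * L) ∧
      (∀ k : ℤ, m (k + n) = m k + 1) := by
  obtain ⟨hpos, hsum⟩ := h
  have hn : (0 : ℤ) < n := by exact_mod_cast Nat.pos_of_ne_zero (NeZero.ne n)
  set g : ZMod n → ℝ := fun i => cw L (p i) (p (i + 1)) with hg
  set q : ℤ → ℝ := fun k => p 0 + L * ((k / n : ℤ) : ℝ) +
    ∑ j ∈ range (k % n).toNat, g (j : ZMod n) with hq
  have hcast : ∀ k : ℤ, ((k % n : ℤ) : ZMod n) = (k : ZMod n) := by
    intro k
    exact (ZMod.intCast_eq_intCast_iff _ _ _).2 (Int.mod_modEq k n)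
  have hstep : ∀ k : ℤ, q (k + 1) = q k + g (k : ZMod n) := by
    intro k
    have h0 := Int.emod_nonneg k hn.ne'
    have h1 := Int.emod_lt_of_pos k hn
    have h2 := Int.emod_add_ediv_mul k n
    have hgr : g (((k % n).toNat : ℕ) : ZMod n) = g (k : ZMod n) := by
      congr 1
      rw [← hcast k]
      conv_rhs => rw [← Int.toNat_of_nonneg h0]
      rw [Int.cast_natCast]
    rcases lt_or_ge (k % n + 1) n with h3 | h3
    · have h4 : (k + 1) / n = k / n := by
        apply Int.ediv_eq_iff_of_pos hn |>.2
        constructor <;> nlinarith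
      have h5 : (k + 1) % n = k % n + 1 := by
        have := Int.emod_add_ediv_mul (k + 1) n
        rw [h4] at this
        linarith
      simp only [hq]
      rw [h4, h5, Int.toNat_add h0 zero_le_one, Int.toNat_one, sum_range_succ, hgr]
      ring
    · have h3' : k % n + 1 = n := by omega
      have h4 : (k + 1) / n = k / n + 1 := by
        apply Int.ediv_eq_iff_of_pos hn |>.2
        constructor <;> nlinarith
      have h5 : (k + 1) % n = 0 := by
        have := Int.emod_add_ediv_mul (k + 1) n
        rw [h4] at this
        nlinarith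
      have h6 : (k % n).toNat + 1 = n := by omega
      have h7 : ∑ j ∈ range (k % n).toNat, g (j : ZMod n) + g (k : ZMod n) = L := by
        rw [← hgr, ← sum_range_succ, h6, ← sum_zmod]
        exact hsum
      simp only [hq]
      rw [h4, h5]
      simp only [Int.toNat_zero, range_zero, sum_empty]
      push_cast
      linarith
  have hper : ∀ k : ℤ, q (k + n) = q k + L := by
    intro k
    simp only [hq]
    rw [Int.add_emod_right, Int.add_ediv_of_dvd_right (dvd_refl _), Int.ediv_self hn.ne']
    push_cast
    ring
  have hgint : ∀ i : ZMod n, ∃ z : ℤ, g i = p (i + 1) - p i + z * L := by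
    intro i
    refine ⟨-⌊(p (i + 1) - p i) / L⌋, ?_⟩
    simp only [hg, cw, Int.fract]
    push_cast
    field_simp
    ring
  have hex : ∀ k : ℤ, ∃ z : ℤ, q k = p (k : ZMod n) + z * L := by
    intro k
    induction k using Int.induction_on with
    | zero =>
      refine ⟨0, ?_⟩
      simp [hq]
    | succ k ih =>
      obtain ⟨z, hz⟩ := ih
      obtain ⟨z', hz'⟩ := hgint ((k : ℤ) : ZMod n)
      refine ⟨z + z', ?_⟩
      rw [hstep, hz, hz']
      push_cast
      ring
    | pred k ih =>
      obtain ⟨z, hz⟩ := ih
      obtain ⟨z', hz'⟩ := hgint ((-(k : ℤ) - 1 : ℤ) : ZMod n)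
      refine ⟨z - z', ?_⟩
      have h1 := hstep (-(k : ℤ) - 1)
      rw [sub_add_cancel, hz, hz'] at h1
      have h2 : (((-(k : ℤ) - 1 : ℤ) : ZMod n) + 1) = ((-(k : ℤ) : ℤ) : ZMod n) := by
        push_cast
        ring
      rw [h2] at h1
      push_cast at h1 ⊢
      linarith
  choose m hm using hex
  refine ⟨m, ?_, ?_⟩
  · intro k
    rw [← hm, ← hm, hstep]
    have := hpos (k : ZMod n)
    simp only [hg]
    linarith
  · intro k
    have h1 := hper k
    rw [hm, hm] at h1
    have h2 : ((k + n : ℤ) : ZMod n) = (k : ZMod n) := by
      push_cast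
      simp
    rw [h2] at h1
    have h3 : (m (k + n) : ℝ) * L = (m k + 1) * L := by linarith
    have h4 := mul_right_cancel₀ hL.ne' h3
    exact_mod_cast h4

theorem cw_eq {L x y g : ℝ} (hL : 0 < L) {z : ℤ} (h : y - x = g + z * L) (h0 : 0 ≤ g)
    (h1 : g < L) : cw L x y = g := by
  unfold cw
  have h2 : (y - x) / L = g / L + z := by
    rw [h]
    field_simp
  rw [h2, Int.fract_add_intCast, Int.fract_eq_self.2 ⟨by positivity, by rwa [div_lt_one hL]⟩]
  field_simp

/-- **Approximate covering of the ring without common orientation is solvable under ASYNC.**  For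
every visibility range `V` and every `ε > 0` there is one algorithm such that for every number
`n ≥ 2` of sensors, every length `L` of the ring with `V ≥ 2 L / n`, every `δ > 0`, every
asynchronous execution (arbitrary orientations and units of length, arbitrary durations of all
phases, moves which may be interrupted after the distance `δ`) from every initial configuration of
distinct points, the sensors remain at distinct points in the same cyclic order forever, and from
some time on they form an `ε`-approximate covering. -/
theorem result (V ε : ℝ) (hV : 0 < V) (hε : 0 < ε) : ∃ A : Algorithm,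
    ∀ (n : ℕ) [NeZero n], 2 ≤ n → ∀ L : ℝ, 0 < L → 2 * (L / n) ≤ V → ∀ δ : ℝ, 0 < δ →
    ∀ (o u look fin : ZMod n → ℕ → ℝ) (p : ℝ → ZMod n → ℝ),
      IsExecution A L V δ o u look fin p → InClockwiseOrder L (p 0) →
      (∀ t, 0 ≤ t → InClockwiseOrder L (p t)) ∧
      ∃ t₁, ∀ t, t₁ ≤ t → ∀ i, |cw L (p t i) (p t (i + 1)) - L / n| ≤ ε := by
  obtain ⟨c, hc0, hc8, hcε⟩ : ∃ c : ℝ, 0 < c ∧ c ≤ 1 / 8 ∧ 8 * c * V ≤ ε := by
    refine ⟨min 1 (ε / V) / 8, by positivity, ?_, ?_⟩
    · have := min_le_left 1 (ε / V)
      linarith
    · have h1 := min_le_right 1 (ε / V)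
      have h2 : min 1 (ε / V) * V ≤ ε := by
        calc min 1 (ε / V) * V ≤ ε / V * V := mul_le_mul_of_nonneg_right h1 hV.le
          _ = ε := by field_simp
      linarith
  refine ⟨alg c, ?_⟩
  intro n _ hn L hL hVn δ hδ o u look fin p hex h0
  obtain ⟨m, hm1, hm2⟩ := exists_lift hL (p 0) h0
  -- the lifted run
  set X : ℤ → ℝ → ℝ := fun k t => p t (k : ZMod n) + m k * L with hX
  have hcastn : ∀ k : ℤ, ((k + n : ℤ) : ZMod n) = (k : ZMod n) := by
    intro k
    push_cast
    simp
  have hXper : ∀ k t, X (k + n) t = X k t + L := by
    intro k t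
    simp only [hX]
    rw [hcastn, hm2]
    push_cast
    ring
  have hXper' : ∀ (z k : ℤ) t, X (k + z * n) t = X k t + z * L := by
    intro z k t
    induction z using Int.induction_on with
    | zero => simp
    | succ z ih =>
      have : k + ((z : ℤ) + 1) * n = (k + z * n) + n := by ring
      rw [this, hXper, ih]
      push_cast
      ring
    | pred z ih =>
      have h1 := hXper (k + (-(z : ℤ) - 1) * n) t
      have : k + (-(z : ℤ) - 1) * n + n = k + (-(z : ℤ)) * n := by ring
      rw [this, ih] at h1
      push_cast at h1 ⊢
      linarith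
  have hsnap : ∀ (k : ℤ) (s o' u' : ℝ), 0 < u' → ∀ r,
      r ∈ snapshot L V (p s) o' u' (k : ZMod n) ↔
        |r| ≤ V / u' ∧ ∃ j, X j s = X k s + o' * (u' * r) := by
    intro k s o' u' _ r
    unfold snapshot
    rw [Set.mem_ofPred_eq]
    refine and_congr_right fun _ => ?_
    constructor
    · rintro ⟨j, z, hz⟩
      obtain ⟨j', rfl⟩ := ZMod.intCast_surjective j
      refine ⟨j' + -(z + m j' - m k) * n, ?_⟩
      rw [hXper']
      simp only [hX]
      rw [hz]
      push_cast
      ring
    · rintro ⟨j, hj⟩
      refine ⟨(j : ZMod n), m k - m j, ?_⟩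
      simp only [hX] at hj
      push_cast
      linarith
  set T : ℤ → ℕ → ℝ := fun k j => X k (look (k : ZMod n) j) +
    o (k : ZMod n) j * (u (k : ZMod n) j * alg c (V / u (k : ZMod n) j)
      (snapshot L V (p (look (k : ZMod n) j)) (o (k : ZMod n) j) (u (k : ZMod n) j)
        (k : ZMod n))) with hT
  have hdest : ∀ (k : ℤ) j, T k j = destination (alg c) L V (p (look (k : ZMod n) j))
      (o (k : ZMod n) j) (u (k : ZMod n) j) (k : ZMod n) + m k * L := by
    intro k j
    simp only [hT, hX, destination]
    ring
  have S : H710.RingCore.Sys n L V c δ X (fun k => look (k : ZMod n)) (fun k => fin (k : ZMod n))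
      T := by
    refine
      { n2 := hn
        Lpos := hL
        Vpos := hV
        cpos := hc0
        c_le := hc8
        δpos := hδ
        hV := hVn
        X_per := hXper
        look_per := ?_
        fin_per := ?_
        T_per := ?_
        look0 := fun k => hex.look_nonneg _
        look_lt := fun k => hex.look_lt_fin _
        fin_le := fun k => hex.fin_le_look _
        unb := fun k => hex.fair _
        idle0 := ?_
        idle := ?_
        move := ?_
        arrive := ?_
        target := ?_
        init := hm1 }
    · intro k j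
      rw [hcastn]
    · intro k j
      rw [hcastn]
    · intro k j
      simp only [hT]
      rw [hXper, hcastn]
      ring
    · intro k t h1 h2
      simp only [hX]
      rw [hex.idle_start _ t h1 h2]
    · intro k j t h1 h2
      simp only [hX]
      rw [hex.idle _ j t h1 h2]
    · intro k j t h1 h2
      have h3 := hex.move _ j t h1 h2
      rw [hdest]
      simp only [hX]
      rw [Set.mem_uIcc] at h3 ⊢
      rcases h3 with h3 | h3
      · left
        constructor <;> linarith [h3.1, h3.2]
      · right
        constructor <;> linarith [h3.1, h3.2]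
    · intro k j
      have h3 := hex.arrive (k : ZMod n) j
      rw [hdest]
      simp only [hX]
      rw [add_sub_add_right_eq_sub, add_sub_add_right_eq_sub]
      exact h3
    · intro k j hord
      simp only [hT]
      exact alg_eq hV (hex.orientation _ _) (hex.unit_pos _ _) (strictMono_int_of_lt_succ hord) k
        (fun r => hsnap k _ _ _ (hex.unit_pos _ _) r)
  -- order
  obtain ⟨μ, hμ, hNC⟩ := S.exists_NC
  have hord : ∀ t, 0 ≤ t → StrictMono (fun k => X k t) := fun t ht =>
    strictMono_int_of_lt_succ (S.order_of_NC hμ ht (hNC t ht))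
  have hcw : ∀ t, 0 ≤ t → ∀ k : ℤ, cw L (p t (k : ZMod n)) (p t ((k : ZMod n) + 1)) =
      X (k + 1) t - X k t := by
    intro t ht k
    have h1 : ((k : ZMod n) + 1) = ((k + 1 : ℤ) : ZMod n) := by push_cast; rfl
    rw [h1]
    refine cw_eq hL (z := m k - m (k + 1)) ?_ ?_ ?_
    · simp only [hX]
      push_cast
      ring
    · have := (hord t ht) (show k < k + 1 by omega)
      simp only at this
      linarith
    · have h2 := (hord t ht) (show k + 1 < k + n by omega)
      simp only at h2
      rw [hXper] at h2
      linarith
  refine ⟨?_, ?_⟩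
  · intro t ht
    constructor
    · intro i
      obtain ⟨k, rfl⟩ := ZMod.intCast_surjective i
      rw [hcw t ht]
      have := (hord t ht) (show k < k + 1 by omega)
      simp only at this
      linarith
    · rw [sum_zmod]
      have h1 : ∀ N : ℕ, ∑ k ∈ range N, cw L (p t (k : ZMod n)) (p t ((k : ZMod n) + 1)) =
          X N t - X 0 t := by
        intro N
        induction N with
        | zero => simp
        | succ N ih =>
          rw [sum_range_succ, ih]
          have h2 := hcw t ht (N : ℤ)
          rw [Int.cast_natCast] at h2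
          rw [h2]
          push_cast
          ring
      rw [h1]
      have h3 := hXper 0 t
      rw [zero_add] at h3
      rw [h3]
      ring
  · obtain ⟨t₁, ht₁, hcov⟩ := S.cover (ε := ε) hcε
    refine ⟨t₁, ?_⟩
    intro t ht i
    obtain ⟨k, rfl⟩ := ZMod.intCast_surjective i
    rw [hcw t (ht₁.trans ht)]
    exact hcov t ht k

end Pool.Agent.Results.MP_5c423c_lc.AsyncCovering
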